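import Pool.Agent.X293.LG.EPt
import Pool.Agent.TH839.UH.Coh

/-!
# The L-function of a Hasse-Weil datum as a member of the class `HW`
-/

set_option autoImplicit false

open Complex Filter Topology Set Polynomial
open scoped ComplexConjugate

namespace Pool.Agent.X293.LG

open Pool.Agent.TH839.UH Pool.Agent.TH839.UH.Coh Pool.Agent

/-- the data of a Hasse-Weil L-function in the class `HW` -/
theorem data {θ : ℝ} (hθ0 : 0 ≤ θ) (hθ1 : θ ≤ 1 / 2) {i : ℕ} {h : ℕ → ℕ} {a b : ℕ} {P : ℕ → ℤ[X]}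
    (hpos : 1 ≤ 2 * ∑ p ∈ Finset.range ((i + 1) / 2), h p + (if Even i then a + b else 0))
    (hP0 : ∀ p, p.Prime → (P p).coeff 0 = 1)
    (hPd : ∀ p, p.Prime → (P p).natDegree ≤
      2 * ∑ p ∈ Finset.range ((i + 1) / 2), h p + (if Even i then a + b else 0))
    (hPr : ∀ p : ℕ, p.Prime → ∀ z : ℂ, aeval z (P p) = 0 → (p : ℝ) ^ (-((i : ℝ) / 2 + θ)) ≤ ‖z‖)
    {A : ℝ} {r : ℕ} {Λ : ℂ → ℂ} (hA : 1 ≤ A)
    (hr : r ≤ 2 * ∑ p ∈ Finset.range ((i + 1) / 2), h p + (if Even i then a + b else 0))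
    (hent : Differentiable ℂ Λ)
    (hord : ∃ A ρ : ℝ, ∀ s : ℂ, ‖Λ s‖ ≤ Real.exp (A * (1 + ‖s‖) ^ ρ))
    (hfe : ∃ ε : ℝ, (ε = 1 ∨ ε = -1) ∧ ∀ s : ℂ, Λ s = ε * Λ (i + 1 - s))
    (heq : ∃ σ : ℝ, ∀ s : ℂ, σ ≤ s.re → Λ s = ((s - (i : ℂ) / 2) * (s - (i : ℂ) / 2 - 1)) ^ r *
      ((A : ℂ) ^ (s / 2) * ((∏ p ∈ Finset.range ((i + 1) / 2), Gammaℂ (s - p) ^ h p) *
        (if Even i then Gammaℝ (s - (i : ℂ) / 2) ^ a * Gammaℝ (s - (i : ℂ) / 2 + 1) ^ b else 1)) *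
        ∏' p : Nat.Primes, (aeval (((p : ℕ) : ℂ) ^ (-s)) (P p))⁻¹)) :
    ∃ (l : List ℂ) (α : Nat.Primes → Fin l.length → ℂ) (κ : ℝ), 0 < κ ∧
      l.length = 2 * ∑ p ∈ Finset.range ((i + 1) / 2), h p + (if Even i then a + b else 0) ∧
      EP.HW l.length r A (fun j => l.get j) α (fun z => (κ : ℂ) * Λ (z + (((i : ℝ) / 2 : ℝ) : ℂ))) ∧
      (∀ p j, ‖α p j‖ ≤ ((p : ℕ) : ℝ) ^ θ) ∧
      ∀ y : ℝ, W355.UN.cond A (fun j => -l.get j) y =
        A * ((∏ p ∈ Finset.range ((i + 1) / 2), ((1 + ‖(y : ℂ) * I + ((i : ℂ) / 2 - p)‖) *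
        (1 + ‖(y : ℂ) * I + ((i : ℂ) / 2 - p + 1)‖)) ^ h p) *
        (if Even i then (1 + ‖(y : ℂ) * I + 0‖) ^ a * (1 + ‖(y : ℂ) * I + 1‖) ^ b else 1)) := by
  obtain ⟨l, hl⟩ : ∃ l : List ℂ, l = shl i h a b := ⟨_, rfl⟩
  have hlen : l.length = 2 * ∑ p ∈ Finset.range ((i + 1) / 2), h p +
      (if Even i then a + b else 0) := by rw [hl, shl_length]
  have hA0 : 0 < A := by linarith
  have hAc : (A : ℂ) ≠ 0 := by exact_mod_cast hA0.ne'
  -- the reciprocal roots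
  have hroots : ∀ p : Nat.Primes, ∃ α : Fin l.length → ℂ,
      (∀ z : ℂ, aeval z (P p) = ∏ j, (1 - α j * z)) ∧
      ∀ j, ‖α j‖ ≤ ((p : ℕ) : ℝ) ^ ((i : ℝ) / 2 + θ) := by
    intro p
    have hp0 : (0 : ℝ) < ((p : ℕ) : ℝ) := by exact_mod_cast p.2.pos
    have hev : ∀ z : ℂ, ((P p).map (algebraMap ℤ ℂ)).eval z = aeval z (P p) := fun z => by
      rw [Polynomial.eval_map, Polynomial.aeval_def]
    obtain ⟨α, h1, h2⟩ := roots l.length ((P p).map (algebraMap ℤ ℂ)) (by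
      rw [Polynomial.coeff_map, hP0 p p.2, map_one]) ((Polynomial.natDegree_map_le).trans (by
        rw [hlen]; exact hPd p p.2))
    refine ⟨α, fun z => by rw [← hev, h1], fun j => ?_⟩
    rcases h2 j with h3 | ⟨h3, h4⟩
    · rw [h3, norm_zero]
      exact Real.rpow_nonneg hp0.le _
    · rw [hev] at h4
      have h5 := hPr p p.2 _ h4
      rw [norm_inv, Real.rpow_neg hp0.le] at h5
      exact (inv_le_inv₀ (Real.rpow_pos_of_pos hp0 _) (norm_pos_iff.2 h3)).1 h5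
  choose α0 hα1 hα2 using hroots
  obtain ⟨α, hαd⟩ : ∃ α : Nat.Primes → Fin l.length → ℂ, α = fun p j =>
      α0 p j * ((p : ℕ) : ℂ) ^ (-((i : ℂ) / 2)) := ⟨_, rfl⟩
  have hαt : ∀ p j, ‖α p j‖ ≤ ((p : ℕ) : ℝ) ^ θ := by
    intro p j
    have hp0 : (0 : ℝ) < ((p : ℕ) : ℝ) := by exact_mod_cast p.2.pos
    have e : (-((i : ℂ) / 2)).re = -((i : ℝ) / 2) := by
      rw [show (-((i : ℂ) / 2)) = ((-((i : ℝ) / 2) : ℝ) : ℂ) by push_cast; rfl, ofReal_re]
    rw [hαd]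
    show ‖α0 p j * ((p : ℕ) : ℂ) ^ (-((i : ℂ) / 2))‖ ≤ _
    rw [norm_mul, Complex.norm_natCast_cpow_of_pos p.2.pos, e]
    calc ‖α0 p j‖ * ((p : ℕ) : ℝ) ^ (-((i : ℝ) / 2)) ≤
        ((p : ℕ) : ℝ) ^ ((i : ℝ) / 2 + θ) * ((p : ℕ) : ℝ) ^ (-((i : ℝ) / 2)) := by
          gcongr
          exact hα2 p j
      _ = ((p : ℕ) : ℝ) ^ θ := by
          rw [← Real.rpow_add hp0]
          congr 1
          ring
  have hα : ∀ p j, ‖α p j‖ ≤ ((p : ℕ) : ℝ) ^ (1 / 2 : ℝ) := fun p j =>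
    (hαt p j).trans (Real.rpow_le_rpow_of_exponent_le (by exact_mod_cast p.2.one_le) hθ1)
  -- the local factors in the normalised variable
  have hloc : ∀ (z : ℂ) (p : Nat.Primes), (aeval (((p : ℕ) : ℂ) ^ (-(z + (i : ℂ) / 2))) (P p))⁻¹ =
      ∏ j, (1 - α p j * ((p : ℕ) : ℂ) ^ (-z))⁻¹ := by
    intro z p
    rw [hα1, ← Finset.prod_inv_distrib]
    refine Finset.prod_congr rfl fun j _ => ?_
    rw [hαd]
    show _ = (1 - α0 p j * ((p : ℕ) : ℂ) ^ (-((i : ℂ) / 2)) * ((p : ℕ) : ℂ) ^ (-z))⁻¹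
    rw [mul_assoc, ← Complex.cpow_add _ _ (EP.p0 p)]
    congr 4
    ring
  -- the completed function for large real part
  obtain ⟨κ, hκd⟩ : ∃ κ : ℝ, κ = A ^ (-((i : ℝ) / 4)) := ⟨_, rfl⟩
  have hκ : 0 < κ := by rw [hκd]; positivity
  have hκA : (κ : ℂ) * (A : ℂ) ^ ((i : ℂ) / 4) = 1 := by
    rw [hκd, Complex.ofReal_cpow hA0.le, ← Complex.cpow_add _ _ hAc]
    push_cast
    rw [neg_add_cancel, Complex.cpow_zero]
  have hhalf : ((i : ℂ) / 2) = ((((i : ℝ) / 2 : ℝ)) : ℂ) := by push_cast; rfl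
  have hkey : ∃ σ : ℝ, ∀ z : ℂ, σ ≤ z.re → (κ : ℂ) * Λ (z + (((i : ℝ) / 2 : ℝ) : ℂ)) =
      (z * (z - 1)) ^ r * ((A : ℂ) ^ (z / 2) * ∏ j, Gammaℝ (z + l.get j)) * EP.E α z := by
    obtain ⟨σ, hσ⟩ := heq
    refine ⟨σ, fun z hz => ?_⟩
    rw [hσ (z + (((i : ℝ) / 2 : ℝ) : ℂ)) (by
      rw [add_re, ofReal_re]
      have : (0 : ℝ) ≤ (i : ℝ) / 2 := by positivity
      linarith), ← hhalf]
    simp only [add_sub_cancel_right]
    have e1 : (A : ℂ) ^ ((z + (i : ℂ) / 2) / 2) = (A : ℂ) ^ (z / 2) * (A : ℂ) ^ ((i : ℂ) / 4) := by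
      rw [← Complex.cpow_add _ _ hAc]
      congr 1
      ring
    have e2 : (∏ j, Gammaℝ (z + l.get j)) =
        (∏ p ∈ Finset.range ((i + 1) / 2), Gammaℂ (z + (i : ℂ) / 2 - p) ^ h p) *
        (if Even i then Gammaℝ z ^ a * Gammaℝ (z + 1) ^ b else 1) := by
      rw [Pool.Agent.W355.UN.prod_get l (fun c : ℂ => Gammaℝ (z + c)), hl, shl_prod]
      simp only [add_zero]
      congr 1
      refine Finset.prod_congr rfl fun p _ => ?_
      rw [← Complex.Gammaℝ_mul_Gammaℝ_add_one]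
      congr 3 <;> ring
    have e3 : (∏' p : Nat.Primes, (aeval (((p : ℕ) : ℂ) ^ (-(z + (i : ℂ) / 2))) (P p))⁻¹) =
        EP.E α z := tprod_congr fun p => hloc z p
    rw [e1, e2, e3]
    linear_combination ((z * (z - 1)) ^ r * ((A : ℂ) ^ (z / 2) *
      ((∏ p ∈ Finset.range ((i + 1) / 2), Gammaℂ (z + (i : ℂ) / 2 - p) ^ h p) *
        (if Even i then Gammaℝ z ^ a * Gammaℝ (z + 1) ^ b else 1))) * EP.E α z) * hκA
  -- `Λ` is real on the real axis
  have hreal : ∀ s : ℂ, conj (Λ (conj s)) = Λ s := by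
    have h1 : AnalyticOnNhd ℂ Λ univ := fun z _ => hent.analyticAt z
    have h2 : AnalyticOnNhd ℂ (fun s => conj (Λ (conj s))) univ := by
      have : Differentiable ℂ (fun s => conj (Λ (conj s))) := by
        intro z
        have := (hent (conj z)).hasDerivAt.conj_conj
        rw [Complex.conj_conj] at this
        exact this.differentiableAt
      exact fun z _ => this.analyticAt z
    obtain ⟨σ, hσ⟩ := heq
    obtain ⟨τ, hτ⟩ : ∃ τ : ℝ, τ = max σ (2 + (i : ℝ) / 2) := ⟨_, rfl⟩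
    intro s
    refine h2.eqOn_of_preconnected_of_eventuallyEq h1 isPreconnected_univ
      (mem_univ (((τ + 1 : ℝ) : ℂ))) ?_ (mem_univ s)
    have h3 : ∀ᶠ z : ℂ in 𝓝 ((τ + 1 : ℝ) : ℂ), τ < z.re :=
      (Complex.continuous_re.tendsto _).eventually (lt_mem_nhds (by
        rw [ofReal_re]; linarith))
    filter_upwards [h3] with z hz
    have hz1 : σ ≤ z.re := by
      have := le_max_left σ (2 + (i : ℝ) / 2)
      linarith
    have hz2 : 2 + (i : ℝ) / 2 ≤ z.re := by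
      have := le_max_right σ (2 + (i : ℝ) / 2)
      linarith
    rw [hσ (conj z) (by rw [Complex.conj_re]; exact hz1), hσ z hz1]
    have hAa : ((A : ℂ)).arg ≠ Real.pi := by
      rw [Complex.arg_ofReal_of_nonneg hA0.le]
      exact Real.pi_pos.ne
    have hE : conj (∏' p : Nat.Primes, (aeval (((p : ℕ) : ℂ) ^ (-(conj z))) (P p))⁻¹) =
        ∏' p : Nat.Primes, (aeval (((p : ℕ) : ℂ) ^ (-z)) (P p))⁻¹ := by
      have hp := EP.prod_eq hα (s := conj z - (i : ℂ) / 2) (by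
        rw [sub_re, Complex.conj_re, hhalf, ofReal_re]
        linarith)
      have hp2 := hp.map (starRingEnd ℂ) Complex.continuous_conj
      have e1 : ∀ p : Nat.Primes, (∏ j, (1 - α p j * ((p : ℕ) : ℂ) ^ (-(conj z - (i : ℂ) / 2)))⁻¹) =
          (aeval (((p : ℕ) : ℂ) ^ (-(conj z))) (P p))⁻¹ := fun p => by
        rw [← hloc, sub_add_cancel]
      simp only [e1] at hp
      have e2 : ∀ p : Nat.Primes, conj ((aeval (((p : ℕ) : ℂ) ^ (-(conj z))) (P p))⁻¹) =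
          (aeval (((p : ℕ) : ℂ) ^ (-z)) (P p))⁻¹ := fun p => by
        have hn : ((((p : ℕ) : ℕ) : ℂ)).arg ≠ Real.pi := by
          rw [Complex.natCast_arg]
          exact Real.pi_pos.ne
        rw [map_inv₀, ← aeval_conj, conj_pow hn (Complex.conj_natCast _)]
        simp only [map_neg, Complex.conj_conj]
      have hp3 : HasProd (fun p : Nat.Primes => (aeval (((p : ℕ) : ℂ) ^ (-z)) (P p))⁻¹)
          (conj (cexp (EP.LG α (conj z - (i : ℂ) / 2)))) := by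
        refine hp2.congr_fun fun p => ?_
        simp only [Function.comp_apply]
        rw [e1, e2]
      rw [hp.tprod_eq, hp3.tprod_eq]
    have hG : conj ((∏ p ∈ Finset.range ((i + 1) / 2), Gammaℂ (conj z - p) ^ h p) *
        (if Even i then Gammaℝ (conj z - (i : ℂ) / 2) ^ a * Gammaℝ (conj z - (i : ℂ) / 2 + 1) ^ b
          else 1)) = (∏ p ∈ Finset.range ((i + 1) / 2), Gammaℂ (z - p) ^ h p) *
        (if Even i then Gammaℝ (z - (i : ℂ) / 2) ^ a * Gammaℝ (z - (i : ℂ) / 2 + 1) ^ b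
          else 1) := by
      have e1 : ∀ p : ℕ, conj z - (p : ℂ) = conj (z - p) := fun p => by
        rw [map_sub, Complex.conj_natCast]
      have e2 : conj z - (i : ℂ) / 2 = conj (z - (i : ℂ) / 2) := by
        rw [map_sub, map_div₀, Complex.conj_natCast, map_ofNat]
      have e3 : conj z - (i : ℂ) / 2 + 1 = conj (z - (i : ℂ) / 2 + 1) := by
        rw [map_add, ← e2, map_one]
      rw [e3, e2, map_mul, map_prod]
      congr 1
      · refine Finset.prod_congr rfl fun p _ => ?_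
        rw [e1, map_pow, GC_conj, Complex.conj_conj]
      · split_ifs
        · rw [map_mul, map_pow, map_pow, GR_conj, GR_conj, Complex.conj_conj, Complex.conj_conj]
        · rw [map_one]
    have e4 : (starRingEnd ℂ) ((i : ℂ) / 2) = (i : ℂ) / 2 := by
      rw [map_div₀, Complex.conj_natCast, map_ofNat]
    have e5 : conj ((A : ℂ) ^ (conj z / 2)) = (A : ℂ) ^ (z / 2) := by
      rw [conj_pow hAa (Complex.conj_ofReal _), map_div₀, Complex.conj_conj, map_ofNat]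
    rw [map_mul, map_mul, map_mul, hE, hG, e5, map_pow, map_mul, map_sub, map_sub, map_sub,
      Complex.conj_conj, e4, map_one]
  -- the normalised function
  have hW : EP.HW l.length r A (fun j => l.get j) α
      (fun z => (κ : ℂ) * Λ (z + (((i : ℝ) / 2 : ℝ) : ℂ))) := by
    refine ⟨by omega, by omega, hA, fun j => ?_, hα, ?_, order_shift hκ (by positivity) hord, ?_,
      hkey⟩
    · exact shl_re i h a b _ (by rw [← hl]; exact List.get_mem _ _)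
    · exact (hent.comp (by fun_prop : Differentiable ℂ fun z : ℂ =>
        z + (((i : ℝ) / 2 : ℝ) : ℂ))).const_mul _
    · obtain ⟨ε, hε, hfe⟩ := hfe
      refine ⟨ε, ?_, fun s => ?_⟩
      · rcases hε with rfl | rfl <;> simp
      · show (κ : ℂ) * Λ (s + (((i : ℝ) / 2 : ℝ) : ℂ)) =
          ε * conj ((κ : ℂ) * Λ (1 - conj s + (((i : ℝ) / 2 : ℝ) : ℂ)))
        rw [map_mul, Complex.conj_ofReal]
        have e : conj (Λ (1 - conj s + (((i : ℝ) / 2 : ℝ) : ℂ))) =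
            Λ (i + 1 - (s + (((i : ℝ) / 2 : ℝ) : ℂ))) := by
          rw [← hreal (i + 1 - (s + (((i : ℝ) / 2 : ℝ) : ℂ)))]
          congr 2
          simp only [map_sub, map_add, Complex.conj_natCast, Complex.conj_ofReal, map_one]
          push_cast
          ring
        rw [e, hfe (s + (((i : ℝ) / 2 : ℝ) : ℂ))]
        ring
  refine ⟨l, α, κ, hκ, hlen, hW, hαt, fun y => ?_⟩
  unfold W355.UN.cond
  simp only [sub_neg_eq_add]
  rw [Pool.Agent.W355.UN.prod_get l (fun c : ℂ => 1 + ‖(y : ℂ) * I + c‖), hl, shl_prod]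

end Pool.Agent.X293.LG
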