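import Pool.Agent.TH839.UH.EP
import Pool.Agent.TH803.LU.ULp

/-!
# Euler products with local roots at most `p^θ`: the class `UL` with the parameter `θ`
-/

set_option autoImplicit false

open Complex Filter Topology Set
open scoped ComplexConjugate

namespace Pool.Agent.X293.LG

open Pool.Agent.W169.HF H353.E Pool.Agent.W355.UN Pool.Agent.TH839.UH.EP
open Pool.Agent.TH839.UH.NF (log_le one_add_ne slit B0 B0_nonneg)

variable {m : ℕ} {α : Nat.Primes → Fin m → ℂ} {θ : ℝ}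

lemma u_le' (hα : ∀ p j, ‖α p j‖ ≤ ((p : ℕ) : ℝ) ^ θ) (p : Nat.Primes) (j : Fin m) {s : ℂ} {ρ : ℝ}
    (hρ : 0 ≤ ρ) (hs : 1 + θ + ρ ≤ s.re) :
    ‖u α p j s‖ ≤ ((p : ℕ) : ℝ) ^ (-(1 + ρ)) ∧ ‖u α p j s‖ ≤ 5 / 8 := by
  have hp2 : (2 : ℝ) ≤ ((p : ℕ) : ℝ) := by exact_mod_cast p.2.two_le
  have hp0 : (0 : ℝ) < ((p : ℕ) : ℝ) := by linarith
  have h1 : ‖u α p j s‖ ≤ ((p : ℕ) : ℝ) ^ (-(1 + ρ)) := by
    unfold u
    rw [norm_mul, Complex.norm_natCast_cpow_of_pos p.2.pos, neg_re]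
    calc ‖α p j‖ * ((p : ℕ) : ℝ) ^ (-s.re) ≤ ((p : ℕ) : ℝ) ^ θ * ((p : ℕ) : ℝ) ^ (-s.re) := by
          gcongr
          exact hα p j
      _ = ((p : ℕ) : ℝ) ^ (θ + -s.re) := (Real.rpow_add hp0 _ _).symm
      _ ≤ _ := Real.rpow_le_rpow_of_exponent_le (by linarith) (by linarith)
  have h2 : ((p : ℕ) : ℝ) ^ (-(1 + ρ)) ≤ 1 / 2 := by
    calc ((p : ℕ) : ℝ) ^ (-(1 + ρ)) ≤ ((p : ℕ) : ℝ) ^ (-(1 : ℝ)) :=
          Real.rpow_le_rpow_of_exponent_le (by linarith) (by linarith)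
      _ = (((p : ℕ) : ℝ))⁻¹ := Real.rpow_neg_one _
      _ ≤ 1 / 2 := by
          rw [inv_le_comm₀ hp0 (by norm_num)]
          norm_num
          exact p.2.two_le
  exact ⟨h1, by linarith⟩

lemma F_le' (hα : ∀ p j, ‖α p j‖ ≤ ((p : ℕ) : ℝ) ^ θ) (p : Nat.Primes) {s : ℂ} {ρ : ℝ}
    (hρ : 0 ≤ ρ) (hs : 1 + θ + ρ ≤ s.re) :
    ‖F α p s‖ ≤ m * 2 * ((p : ℕ) : ℝ) ^ (-(1 + ρ)) := by
  unfold F
  have h1 : ∀ j : Fin m, ‖-log (1 + -u α p j s)‖ ≤ 2 * ((p : ℕ) : ℝ) ^ (-(1 + ρ)) := by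
    intro j
    obtain ⟨a1, a2⟩ := u_le' hα p j hρ hs
    have h2 := log_le (z := -u α p j s) (by rw [norm_neg]; exact a2)
    rw [norm_neg] at h2 ⊢
    linarith
  refine (norm_sum_le _ _).trans ((Finset.sum_le_sum fun j _ => h1 j).trans (le_of_eq ?_))
  rw [Finset.sum_const, Finset.card_univ, Fintype.card_fin, nsmul_eq_mul]
  ring

lemma p_sum' {ρ : ℝ} (hρ : 0 < ρ) : Summable fun p : Nat.Primes => ((p : ℕ) : ℝ) ^ (-(1 + ρ)) :=
  Nat.Primes.summable_rpow.2 (by linarith)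

/-- the sum over the primes -/
noncomputable def S1 (ρ : ℝ) : ℝ := ∑' p : Nat.Primes, 2 * ((p : ℕ) : ℝ) ^ (-(1 + ρ))

lemma S1_nonneg (ρ : ℝ) : 0 ≤ S1 ρ :=
  tsum_nonneg fun p => mul_nonneg two_pos.le (Real.rpow_nonneg (Nat.cast_nonneg _) _)

lemma LG_sum' (hα : ∀ p j, ‖α p j‖ ≤ ((p : ℕ) : ℝ) ^ θ) {s : ℂ} (hs : 1 + θ < s.re) :
    Summable fun p : Nat.Primes => F α p s :=
  Summable.of_norm_bounded ((p_sum' (ρ := s.re - 1 - θ) (by linarith)).mul_left ((m : ℝ) * 2))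
    fun p => F_le' hα p (by linarith) (by linarith)

lemma LG_le' (hα : ∀ p j, ‖α p j‖ ≤ ((p : ℕ) : ℝ) ^ θ) {s : ℂ} {ρ : ℝ} (hρ : 0 < ρ)
    (hs : 1 + θ + ρ ≤ s.re) : ‖LG α s‖ ≤ m * S1 ρ := by
  unfold LG
  refine (tsum_of_norm_bounded ((p_sum' hρ).mul_left ((m : ℝ) * 2)).hasSum
    fun p => F_le' hα p hρ.le hs).trans ?_
  unfold S1
  rw [tsum_mul_left, tsum_mul_left]
  apply le_of_eq
  ring

lemma LG_diff' (hα : ∀ p j, ‖α p j‖ ≤ ((p : ℕ) : ℝ) ^ θ) {s : ℂ} (hs : 1 + θ < s.re) :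
    DifferentiableAt ℂ (LG α) s := by
  obtain ⟨ρ, hρ⟩ : ∃ ρ : ℝ, ρ = (s.re - 1 - θ) / 2 := ⟨_, rfl⟩
  have hρ0 : 0 < ρ := by rw [hρ]; linarith
  have hopen : IsOpen {z : ℂ | 1 + θ + ρ < z.re} := isOpen_lt continuous_const Complex.continuous_re
  have hmem : s ∈ {z : ℂ | 1 + θ + ρ < z.re} := by
    show 1 + θ + ρ < s.re
    rw [hρ]; linarith
  refine DifferentiableOn.differentiableAt (s := {z : ℂ | 1 + θ + ρ < z.re}) ?_ (hopen.mem_nhds hmem)
  refine differentiableOn_tsum_of_summable_norm (u := fun p : Nat.Primes =>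
    m * 2 * ((p : ℕ) : ℝ) ^ (-(1 + ρ))) ((p_sum' hρ0).mul_left ((m : ℝ) * 2)) (fun p z hz => ?_) hopen
    (fun p z hz => F_le' hα p hρ0.le (le_of_lt hz))
  have hz' : 1 + θ + ρ < z.re := hz
  unfold F
  refine DifferentiableAt.differentiableWithinAt ?_
  refine DifferentiableAt.fun_sum fun j _ => ?_
  have hg : DifferentiableAt ℂ (fun s => 1 + -u α p j s) z := by
    unfold u
    have h1 : DifferentiableAt ℂ (fun s : ℂ => ((p : ℕ) : ℂ) ^ (-s)) z :=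
      DifferentiableAt.const_cpow (by fun_prop) (Or.inl (p0 p))
    exact ((h1.const_mul (α p j)).neg).const_add 1
  exact (hg.clog (slit (z := -u α p j z) (by
    rw [norm_neg]; exact (u_le' hα p j hρ0.le hz'.le).2))).neg

theorem prod_eq' (hα : ∀ p j, ‖α p j‖ ≤ ((p : ℕ) : ℝ) ^ θ) {s : ℂ} (hs : 1 + θ < s.re) :
    HasProd (fun p : Nat.Primes => ∏ j, (1 - α p j * ((p : ℕ) : ℂ) ^ (-s))⁻¹) (cexp (LG α s)) := by
  have H := (LG_sum' hα hs).hasSum.cexp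
  refine H.congr_fun ?_ |> fun h => h
  intro p
  simp only [Function.comp_apply]
  unfold F
  rw [Complex.exp_sum]
  refine Finset.prod_congr rfl fun j _ => ?_
  rw [Complex.exp_neg, Complex.exp_log (one_add_ne (z := -u α p j s) (by
    rw [norm_neg]; exact (u_le' hα p j (ρ := 0) le_rfl (by linarith)).2))]
  unfold u
  rw [← sub_eq_add_neg]

lemma E_ev' (hα : ∀ p j, ‖α p j‖ ≤ ((p : ℕ) : ℝ) ^ θ) {s : ℂ} (hs : 1 + θ < s.re) :
    E α =ᶠ[𝓝 s] fun s => cexp (LG α s) := by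
  have hopen : IsOpen {s : ℂ | 1 + θ < s.re} := isOpen_lt continuous_const Complex.continuous_re
  filter_upwards [hopen.mem_nhds hs] with z hz
  exact (prod_eq' hα hz).tprod_eq

lemma E_an' (hα : ∀ p j, ‖α p j‖ ≤ ((p : ℕ) : ℝ) ^ θ) {s : ℂ} (hs : 1 + θ < s.re) :
    DifferentiableAt ℂ (E α) s ∧ E α s ≠ 0 := by
  constructor
  · exact (LG_diff' hα hs).cexp.congr_of_eventuallyEq (E_ev' hα hs)
  · rw [(E_ev' hα hs).eq_of_nhds]
    exact Complex.exp_ne_zero _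

theorem logDeriv_le' (hα : ∀ p j, ‖α p j‖ ≤ ((p : ℕ) : ℝ) ^ θ) {s : ℂ} {ρ : ℝ} (hρ : 0 < ρ)
    (hs : 1 + θ + ρ ≤ s.re) : ‖logDeriv (E α) s‖ ≤ m * (2 / ρ * S1 (ρ / 2)) := by
  have hs' : 1 + θ < s.re := by linarith
  have hd : DifferentiableAt ℂ (LG α) s := LG_diff' hα hs'
  have h1 : logDeriv (E α) s = deriv (LG α) s := by
    rw [logDeriv_apply, (E_ev' hα hs').deriv_eq, (E_ev' hα hs').eq_of_nhds, hd.hasDerivAt.cexp.deriv,
      mul_div_cancel_left₀ _ (Complex.exp_ne_zero _)]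
  rw [h1]
  have hre : ∀ z : ℂ, ‖z - s‖ ≤ ρ / 2 → 1 + θ + ρ / 2 ≤ z.re := by
    intro z hz
    have h2 := (abs_le.1 ((Complex.abs_re_le_norm (z - s)).trans hz)).1
    rw [sub_re] at h2
    linarith
  have h2 := Complex.norm_deriv_le_of_forall_mem_sphere_norm_le (c := s) (R := ρ / 2)
    (C := m * S1 (ρ / 2)) (f := LG α) (by linarith) ?_ (fun z hz => ?_)
  · refine h2.trans (le_of_eq ?_)
    field_simp
  · apply DifferentiableOn.diffContOnCl
    rw [closure_ball _ (by linarith)]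
    intro z hz
    rw [Metric.mem_closedBall, dist_eq_norm] at hz
    exact (LG_diff' hα (by have := hre z hz; linarith)).differentiableWithinAt
  · rw [mem_sphere_iff_norm] at hz
    exact LG_le' hα (by linarith) (hre z hz.le)

variable {r : ℕ} {N : ℝ} {a : Fin m → ℂ} {X : ℂ → ℂ}

/-- the formula for `X` holds for `Re s > 1 + θ` -/
lemma eq_t (h : HW m r N a α X) (hθ0 : 0 ≤ θ) (hα : ∀ p j, ‖α p j‖ ≤ ((p : ℕ) : ℝ) ^ θ) {s : ℂ}
    (hs : 1 + θ < s.re) :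
    X s = gaf N (fun j => -a j) s * ((s * (s - 1)) ^ r * E α s) := by
  have hgp := gaf_GP h.hm h.hN h.re_le
  obtain ⟨σ, hσ⟩ := h.eq
  have h1 : AnalyticOnNhd ℂ X {s : ℂ | 1 + θ < s.re} := fun z _ => h.entire.analyticAt z
  have hopen : IsOpen {s : ℂ | 1 + θ < s.re} := isOpen_lt continuous_const Complex.continuous_re
  have h2 : AnalyticOnNhd ℂ (fun s => gaf N (fun j => -a j) s * ((s * (s - 1)) ^ r * E α s))
      {s : ℂ | 1 + θ < s.re} := by
    refine DifferentiableOn.analyticOnNhd (fun z hz => ?_) hopen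
    have hz' : 1 + θ < z.re := hz
    have h3 : DifferentiableAt ℂ (gaf N fun j => -a j) z :=
      (hgp.der z (by linarith)).differentiableAt
    have h4 : DifferentiableAt ℂ (fun s : ℂ => (s * (s - 1)) ^ r) z := by fun_prop
    exact (h3.mul (h4.mul (E_an' hα hz').1)).differentiableWithinAt
  have hz0 : ((max σ (1 + θ) + 1 : ℝ) : ℂ) ∈ {s : ℂ | 1 + θ < s.re} := by
    have := le_max_right σ (1 + θ)
    show 1 + θ < (((max σ (1 + θ) + 1 : ℝ) : ℂ)).re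
    rw [Complex.ofReal_re]
    linarith
  refine h1.eqOn_of_preconnected_of_eventuallyEq h2 (convex_halfSpace_re_gt (1 + θ)).isPreconnected
    hz0 ?_ hs
  have h3 : ∀ᶠ z : ℂ in 𝓝 ((max σ (1 + θ) + 1 : ℝ) : ℂ), σ < z.re := by
    have := le_max_left σ (1 + θ)
    exact (Complex.continuous_re.tendsto _).eventually (lt_mem_nhds (by
      rw [Complex.ofReal_re]
      linarith))
  filter_upwards [h3] with z hz
  rw [hσ z hz.le, gaf_eq]
  ring

/-- the bound for the logarithmic derivatives -/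
noncomputable def Bt (ρ : ℝ) : ℝ := 2 / |ρ| * S1 (ρ / 2) + (1 + 1 / |ρ|)

lemma Bt_nonneg (ρ : ℝ) : 0 ≤ Bt ρ := by
  unfold Bt
  have := S1_nonneg (ρ / 2)
  have : 0 ≤ 2 / |ρ| := by positivity
  have : 0 ≤ 1 / |ρ| := by positivity
  positivity

/-- the class `UL`, with the parameter `θ` and an absolute function `Bt` -/
theorem ul_t (h : HW m r N a α X) (hθ0 : 0 ≤ θ) (hα : ∀ p j, ‖α p j‖ ≤ ((p : ℕ) : ℝ) ^ θ) :
    UL m Bt N θ (fun j => -a j) X (fun s => (s * (s - 1)) ^ r * E α s) := by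
  have hs0 : ∀ s : ℂ, 1 < s.re → s ≠ 0 := fun s hs h0 => by
    rw [h0] at hs; norm_num at hs
  have hs1 : ∀ s : ℂ, 1 < s.re → s - 1 ≠ 0 := fun s hs h0 => by
    rw [sub_eq_zero] at h0
    rw [h0] at hs; norm_num at hs
  refine ⟨h.hm, h.hN, Bt_nonneg, hθ0, h.re_le, h.slow, h.fe, fun s hs => eq_t h hθ0 hα hs,
    fun s hs => ?_, fun ρ hρ _ s hs => ?_⟩
  · have hs' : 1 < s.re := by linarith
    exact mul_ne_zero (pow_ne_zero _ (mul_ne_zero (hs0 s hs') (hs1 s hs'))) (E_an' hα hs).2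
  · have hs' : 1 < s.re := by linarith
    obtain ⟨hdE, hne⟩ := E_an' hα (s := s) (by linarith)
    have e1 : logDeriv (fun s : ℂ => (s * (s - 1)) ^ r * E α s) s =
        r * (1 / s + 1 / (s - 1)) + logDeriv (E α) s := by
      rw [logDeriv_mul (f := fun s : ℂ => (s * (s - 1)) ^ r) (g := E α) s
        (pow_ne_zero _ (mul_ne_zero (hs0 s hs') (hs1 s hs'))) hne (by fun_prop) hdE]
      congr 1
      have e2 : logDeriv (fun s : ℂ => (s * (s - 1)) ^ r) s =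
          r * logDeriv (fun s : ℂ => s * (s - 1)) s :=
        logDeriv_fun_pow (f := fun s : ℂ => s * (s - 1)) (by fun_prop) r
      rw [e2, logDeriv_mul (f := fun s : ℂ => s) (g := fun s : ℂ => s - 1) s (hs0 s hs') (hs1 s hs')
        (by fun_prop) (by fun_prop)]
      congr 1
      rw [logDeriv_apply, logDeriv_apply]
      simp
    rw [e1]
    have hm0 : (0 : ℝ) ≤ m := Nat.cast_nonneg m
    have hr0 : (r : ℝ) ≤ m := by exact_mod_cast h.hr
    have hρs : ρ ≤ ‖s - 1‖ := by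
      have := Complex.re_le_norm (s - 1)
      rw [sub_re, one_re] at this
      linarith
    have hρ0 : 1 ≤ ‖s‖ := by
      have := Complex.re_le_norm s
      linarith
    have h1 : ‖(r : ℂ) * (1 / s + 1 / (s - 1))‖ ≤ m * (1 + 1 / ρ) := by
      rw [norm_mul, Complex.norm_natCast]
      have h2 : ‖1 / s + 1 / (s - 1)‖ ≤ 1 + 1 / ρ := by
        refine (norm_add_le _ _).trans ?_
        rw [norm_div, norm_div, norm_one]
        have h3 : 1 / ‖s‖ ≤ 1 := by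
          rw [div_le_one (by linarith)]
          exact hρ0
        have h4 : 1 / ‖s - 1‖ ≤ 1 / ρ := one_div_le_one_div_of_le hρ hρs
        linarith
      exact mul_le_mul hr0 h2 (norm_nonneg _) hm0
    have h2 := logDeriv_le' hα (s := s) hρ (by linarith)
    refine (norm_add_le _ _).trans ?_
    unfold Bt
    rw [abs_of_pos hρ]
    have e3 : (m : ℝ) * (2 / ρ * S1 (ρ / 2) + (1 + 1 / ρ)) =
      m * (1 + 1 / ρ) + m * (2 / ρ * S1 (ρ / 2)) := by ring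
    rw [e3]
    exact add_le_add h1 h2

end Pool.Agent.X293.LG
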