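import Pool.Agent.X293.LG.Data
import Pool.Agent.TH803.LU.EC

/-!
# Laguerre inequalities for Hasse-Weil L-functions
-/

set_option autoImplicit false

open Complex Filter Topology Set
open scoped ComplexConjugate

namespace Pool.Agent.X293.LG

open Pool.Agent.W169.HF H353.E Pool.Agent.W355.UN Pool.Agent.TH839.UH.EP
open Pool.Agent.TH803.LU (LC sh abs_pos sharp_pos zf_pos rh_iff_lag fin_lag fin_zf LC_const_mul LC_eq)

/-- the class `HW` with the local bound `p^θ` -/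
theorem hw_lag {θ η : ℝ} (hθ0 : 0 ≤ θ) (hθ1 : θ ≤ 1 / 2) (hη : 0 < η) : ∃ C₀ : ℝ, 0 < C₀ ∧
    ∀ (m r : ℕ) (N : ℝ) (a : Fin m → ℂ) (α : Nat.Primes → Fin m → ℂ) (X : ℂ → ℂ),
    HW m r N a α X → (∀ p j, ‖α p j‖ ≤ ((p : ℕ) : ℝ) ^ θ) →
    (∀ (n : ℕ) (t : ℝ), ((1 + 2 * θ) / 4 + η) * Real.log (cond N (fun j => -a j) t) + C₀ * m ≤ n →
      0 < LC (sh X t) n) ∧
    ((∀ s : ℂ, X s = 0 → s.re = 1 / 2) ↔
      ∀ (n : ℕ) (t : ℝ), (n : ℝ) < ((1 + 2 * θ) / 4 + η) * Real.log (cond N (fun j => -a j) t) +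
        C₀ * m → 0 ≤ LC (sh X t) n) := by
  obtain ⟨C, hC, HC⟩ := abs_pos (Bt_nonneg 1)
  obtain ⟨K, hK, HK⟩ := sharp_pos (B := Bt) (θ := θ) (η := min η 1) Bt_nonneg hθ0 hθ1
    (by positivity) (min_le_right _ _)
  refine ⟨C * (1 + K), by positivity, fun m r N a α X h hα => ?_⟩
  have u := ul_t h hθ0 hα
  have hd : (1 : ℝ) ≤ m := by exact_mod_cast h.hm
  have key : ∀ (n : ℕ) (t : ℝ), ((1 + 2 * θ) / 4 + η) * Real.log (cond N (fun j => -a j) t) +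
      C * (1 + K) * m ≤ n → 0 < LC (sh X t) n := by
    intro n t hn
    have hlog : 0 ≤ Real.log (cond N (fun j => -a j) t) :=
      Real.log_nonneg (one_le_cond h.hN _ t)
    by_cases hc : K * m ≤ Real.log (cond N (fun j => -a j) t)
    · refine HK m N _ X _ u t n hc (le_trans ?_ hn)
      have h1 : min η 1 ≤ η := min_le_left _ _
      have h2 : 0 ≤ C * (1 + K) * m := by positivity
      nlinarith [mul_le_mul_of_nonneg_right h1 hlog]
    · push Not at hc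
      refine HC m N θ _ X _ u (by linarith) t n (le_trans ?_ hn)
      have h1 : 0 ≤ ((1 + 2 * θ) / 4 + η) * Real.log (cond N (fun j => -a j) t) := by positivity
      nlinarith [mul_le_mul_of_nonneg_left hc.le hC.le]
  refine ⟨key, ?_⟩
  rw [rh_iff_lag u]
  constructor
  · intro hr n t _
    exact hr n t
  · intro hr n t
    rcases lt_or_ge (n : ℝ) (((1 + 2 * θ) / 4 + η) * Real.log (cond N (fun j => -a j) t) +
      C * (1 + K) * m) with h1 | h1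
    · exact hr n t h1
    · exact (key n t h1).le

/-- with a zero-free half-plane -/
theorem hw_zf {η ϑ : ℝ} (hη : 0 < η) (hϑ : 0 ≤ ϑ) (hϑ1 : ϑ ≤ 1 / 2) (m : ℕ) :
    ∃ C₁ : ℝ, ∀ (r : ℕ) (N : ℝ) (a : Fin m → ℂ) (α : Nat.Primes → Fin m → ℂ) (X : ℂ → ℂ),
    HW m r N a α X → (∀ p j, ‖α p j‖ ≤ ((p : ℕ) : ℝ) ^ (0 : ℝ)) →
    (∀ s : ℂ, X s = 0 → s.re ≤ 1 / 2 + ϑ) →
    ∀ (n : ℕ) (t : ℝ), (ϑ / 2 + η) * Real.log (cond N (fun j => -a j) t) + C₁ ≤ n →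
      0 < LC (sh X t) n := by
  obtain ⟨C, hC, HC⟩ := abs_pos (Bt_nonneg 1)
  obtain ⟨K, hK, HK⟩ := zf_pos (B := Bt) (η := min η 1) Bt_nonneg hϑ hϑ1
    (by positivity) (min_le_right _ _) m
  refine ⟨C * (m + K), fun r N a α X h hα hz n t hn => ?_⟩
  have u := ul_t h le_rfl hα
  have hlog : 0 ≤ Real.log (cond N (fun j => -a j) t) := Real.log_nonneg (one_le_cond h.hN _ t)
  by_cases hc : K ≤ Real.log (cond N (fun j => -a j) t)
  · refine HK N _ X _ u hz t n hc (le_trans ?_ hn)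
    have h1 : min η 1 ≤ η := min_le_left _ _
    have h2 : 0 ≤ C * (m + K) := by positivity
    nlinarith [mul_le_mul_of_nonneg_right h1 hlog]
  · push Not at hc
    refine HC m N 0 _ X _ u (by norm_num) t n (le_trans ?_ hn)
    have h1 : 0 ≤ (ϑ / 2 + η) * Real.log (cond N (fun j => -a j) t) := by positivity
    nlinarith [mul_le_mul_of_nonneg_left hc.le hC.le]

/-- The `n`-th Laguerre expression of `Λ` at height `t`, for the line `Re s = c`: the coefficient of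
`x^(2n)` in `|Λ(c + i t + x)|²`, `x` real. -/
noncomputable def Lg (Λ : ℂ → ℂ) (c : ℝ) (n : ℕ) (t : ℝ) : ℝ :=
  iteratedDeriv (2 * n) (fun x : ℝ => ‖Λ (c + t * I + x)‖ ^ 2) 0 / ((2 * n).factorial : ℝ)

theorem LC_lg {Λ : ℂ → ℂ} (hd : Differentiable ℂ Λ) {X : ℂ → ℂ} {κ : ℂ} {e : ℝ}
    (hX : ∀ z, X z = κ * Λ (z + (e : ℂ))) (n : ℕ) (t : ℝ) :
    LC (sh X t) n = ‖κ‖ ^ 2 * Lg Λ (1 / 2 + e) n t := by
  have h1 : Differentiable ℂ (fun u : ℂ => Λ (((1 / 2 + e : ℝ) : ℂ) + t * I + u)) :=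
    hd.comp (by fun_prop)
  have e1 : sh X t = fun u => κ * Λ (((1 / 2 + e : ℝ) : ℂ) + t * I + u) := by
    funext u
    unfold Pool.Agent.TH803.LU.sh
    rw [hX]
    congr 2
    push_cast
    ring
  rw [e1, LC_const_mul h1, LC_eq h1]
  rfl

/-- transport of the statements -/
theorem transport {Λ : ℂ → ℂ} (hd : Differentiable ℂ Λ) {X : ℂ → ℂ} {κ : ℂ} (hκ : κ ≠ 0) {e : ℝ}
    (hX : ∀ z, X z = κ * Λ (z + (e : ℂ))) :
    (∀ (n : ℕ) (t : ℝ), 0 < LC (sh X t) n ↔ 0 < Lg Λ (1 / 2 + e) n t) ∧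
    (∀ (n : ℕ) (t : ℝ), 0 ≤ LC (sh X t) n ↔ 0 ≤ Lg Λ (1 / 2 + e) n t) ∧
    (∀ c : ℝ, (∀ s : ℂ, X s = 0 → s.re ≤ 1 / 2 + c) ↔ ∀ s : ℂ, Λ s = 0 → s.re ≤ 1 / 2 + e + c) ∧
    ((∀ s : ℂ, X s = 0 → s.re = 1 / 2) ↔ ∀ s : ℂ, Λ s = 0 → s.re = 1 / 2 + e) := by
  have hk : 0 < ‖κ‖ ^ 2 := by
    have := norm_pos_iff.2 hκ
    positivity
  have hz1 : ∀ s : ℂ, Λ s = 0 → X (s - e) = 0 := fun s hs => by
    rw [hX, sub_add_cancel, hs, mul_zero]
  have hz2 : ∀ s : ℂ, X s = 0 → Λ (s + e) = 0 := fun s hs => by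
    rw [hX] at hs
    exact (mul_eq_zero.1 hs).resolve_left hκ
  refine ⟨fun n t => ?_, fun n t => ?_, fun c => ⟨fun h s hs => ?_, fun h s hs => ?_⟩,
    ⟨fun h s hs => ?_, fun h s hs => ?_⟩⟩
  · rw [LC_lg hd hX]
    exact mul_pos_iff_of_pos_left hk
  · rw [LC_lg hd hX]
    exact mul_nonneg_iff_of_pos_left hk
  · have := h _ (hz1 s hs)
    simp at this
    linarith
  · have := h _ (hz2 s hs)
    simp at this
    linarith
  · have := h _ (hz1 s hs)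
    simp at this
    linarith
  · have := h _ (hz2 s hs)
    simp at this
    linarith

end Pool.Agent.X293.LG
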