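import Pool.Agent.X293.LG.Main

/-!
# The powers of the curve `y² = x³ - x`
-/

set_option autoImplicit false

open Complex Filter Topology Set
open scoped ComplexConjugate

namespace Pool.Agent.X293.LG

open Pool.Agent H353.E Pool.Agent.W355.UN Pool.Agent.TH839.UH
open Pool.Agent.TH803.LU (LC sh fin_lag fin_zf)

/-- the completed L-function of `H^(2m+1)(E^g)` -/
theorem pow_data (g m : ℕ) (hm : m < g) : ∃ (Λ X : ℂ → ℂ), Differentiable ℂ Λ ∧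
    (∀ s : ℂ, (((2 * m + 1 : ℕ) : ℝ) - 1) / 2 < s.re →
      Λ s = (W355.HW.Cond g (2 * m + 1) : ℂ) ^ ((s - ((2 * m + 1 : ℕ) : ℂ) / 2) / 2) *
        W355.HW.GamF g (2 * m + 1) s * W355.HW.LL0 g m (s - ((2 * m + 1 : ℕ) : ℂ) / 2)) ∧
    (∀ s : ℂ, Λ (conj s) = conj (Λ s)) ∧
    (∃ r : ℕ, r ≤ 1 ∧ ∀ s : ℂ, Λ (((2 * m + 1 : ℕ) : ℂ) + 1 - s) = (-1) ^ r * Λ s) ∧
    Pk ((2 * g).choose (2 * m + 1)) (W355.HW.Cond g (2 * m + 1)) (cnP g (2 * m + 1))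
      (W355.HW.GP g m) X ∧
    ∀ z, X z = 1 * Λ (z + (((((2 * m + 1 : ℕ) : ℝ) / 2 : ℝ)) : ℂ)) := by
  obtain ⟨C', K, hC', -, H'⟩ := Pool.Agent.W355.UN.fin_all
  obtain ⟨Λ, h1, h2, h3, h4, -⟩ := Pool.Agent.W355.UN.main_pow H' hC' g m hm
  obtain ⟨X, hpk, hst⟩ := pk_pow g m hm
  refine ⟨Λ, X, h1, h2, h3, h4, hpk, ?_⟩
  have hd := hpk.diff
  obtain ⟨μ, L, u, ec, σ, hσ⟩ := hpk
  have hc2 : ((2 * m + 1 : ℕ) : ℂ) / 2 = (((((2 * m + 1 : ℕ) : ℝ) / 2 : ℝ)) : ℂ) := by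
    push_cast
    rfl
  intro z
  rw [one_mul]
  have hd2 : Differentiable ℂ fun z : ℂ => Λ (z + (((((2 * m + 1 : ℕ) : ℝ) / 2 : ℝ)) : ℂ)) :=
    h1.comp (by fun_prop)
  have e : (fun z => Λ (z + (((((2 * m + 1 : ℕ) : ℝ) / 2 : ℝ)) : ℂ))) = X := by
    refine Pk.uniq hd hd2 (G := W355.HW.GP g m) ⟨σ, hσ⟩ ⟨0, fun s hs => ?_⟩
    show Λ (s + (((((2 * m + 1 : ℕ) : ℝ) / 2 : ℝ)) : ℂ)) = _
    rw [h2 _ (by rw [add_re, ofReal_re]; linarith), hc2, add_sub_cancel_right]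
    unfold W355.HW.GP
    rw [W355.HW.BB_eq, ← W355.HW.GamF_eq]
    rw [← hc2]
    simp only [add_sub_cancel_right]
  exact (congrFun e z).symm

end Pool.Agent.X293.LG
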